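import Mathlib
import Pool.Agent.N694.PW.Up

set_option autoImplicit false

/-! An upper bound sieve for a fixed family of linear forms in arithmetic progressions, uniformly in the modulus. -/

namespace Pool.Agent.W2helper64.UM

open Finset Filter Topology
open Pool.Agent.Y959.Sv (nu up_sieve)
open Pool.Agent.Helper923.HMertens (mertens_ratio)
open Pool.Agent.N694.PW

/-- `1 - r / p ≥ (1 - 1 / p) ^ (2 r)` for `p ≥ 2 r` -/
lemma fac_ge (r p : ℕ) (hp : 2 ≤ p) (h : 2 * r ≤ p) :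
    (1 - (1 : ℝ) / p) ^ (2 * r) ≤ 1 - (r : ℝ) / p := by
  have hp0 : (2 : ℝ) ≤ p := by exact_mod_cast hp
  have hpp : (0 : ℝ) < p := by linarith
  have h1 : (1 - (1 : ℝ) / p) ^ (2 * r) ≤ Real.exp (-(2 * r / p : ℝ)) := by
    have h2 : 1 - (1 : ℝ) / p ≤ Real.exp (-(1 / p : ℝ)) := by
      have := Real.add_one_le_exp (-(1 / p : ℝ))
      linarith
    have h3 : 0 ≤ 1 - (1 : ℝ) / p := by
      have : (1 : ℝ) / p ≤ 1 := by rw [div_le_one hpp]; linarith
      linarith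
    calc (1 - (1 : ℝ) / p) ^ (2 * r) ≤ (Real.exp (-(1 / p : ℝ))) ^ (2 * r) := pow_le_pow_left₀ h3 h2 _
      _ = _ := by
        rw [← Real.exp_nat_mul]
        congr 1
        push_cast
        ring
  refine h1.trans ?_
  set y : ℝ := 2 * r / p with hy
  have hy0 : 0 ≤ y := by positivity
  have hy1 : y ≤ 1 := by
    rw [hy, div_le_one hpp]
    exact_mod_cast h
  have e : (r : ℝ) / p = y / 2 := by rw [hy]; ring
  rw [e]
  -- `exp (-y) ≤ 1 / (1 + y) ≤ 1 - y / 2`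
  have h4 : 1 + y ≤ Real.exp y := by linarith [Real.add_one_le_exp y]
  rw [Real.exp_neg]
  calc (Real.exp y)⁻¹ ≤ (1 + y)⁻¹ := inv_anti₀ (by linarith) h4
    _ ≤ 1 - y / 2 := by
      rw [inv_le_iff_one_le_mul₀ (by linarith)]
      nlinarith

lemma totient_prod (q : ℕ) (hq : 1 ≤ q) : ((Nat.totient q : ℝ) / q) = ∏ p ∈ q.primeFactors, (1 - (1 : ℝ) / p) := by
  have h := Nat.totient_eq_mul_prod_factors q
  have h2 : ((Nat.totient q : ℚ) : ℝ) = ((q * ∏ p ∈ q.primeFactors, (1 - (p : ℚ)⁻¹) : ℚ) : ℝ) := by rw [h]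
  push_cast at h2
  have hq0 : (0 : ℝ) < q := by exact_mod_cast hq
  rw [h2, mul_div_cancel_left₀ _ hq0.ne']
  apply prod_congr rfl
  intro p _
  rw [one_div]

/-- removing the prime factors of `q` from the product -/
lemma prod_drop (r q : ℕ) (hq : 1 ≤ q) (S : Finset ℕ) (hS : ∀ p ∈ S, p.Prime ∧ 2 * r ≤ p) :
    (∏ p ∈ S.filter (fun p => ¬ p ∣ q), (1 - (r : ℝ) / p)) * ((Nat.totient q : ℝ) / q) ^ (2 * r) ≤
      ∏ p ∈ S, (1 - (r : ℝ) / p) := by
  have hfac0 : ∀ p ∈ S, (0 : ℝ) ≤ 1 - (r : ℝ) / p := by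
    intro p hp
    obtain ⟨h1, h2⟩ := hS p hp
    have hp0 : (0 : ℝ) < p := by exact_mod_cast h1.pos
    have : (r : ℝ) / p ≤ 1 := by
      rw [div_le_one hp0]
      exact_mod_cast (by omega : r ≤ p)
    linarith
  have h01 : ∀ p : ℕ, p.Prime → (0 : ℝ) ≤ 1 - 1 / p ∧ (1 : ℝ) - 1 / p ≤ 1 := by
    intro p hp
    have hp0 : (1 : ℝ) ≤ p := by exact_mod_cast hp.one_lt.le
    have h1 : (1 : ℝ) / p ≤ 1 := by rw [div_le_one (by linarith)]; exact hp0
    have h2 : (0 : ℝ) ≤ 1 / p := by positivity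
    constructor <;> linarith
  have h1 : ((Nat.totient q : ℝ) / q) ^ (2 * r) ≤ ∏ p ∈ S.filter (fun p => p ∣ q), (1 - (r : ℝ) / p) := by
    rw [totient_prod q hq]
    have h2 : ∏ p ∈ q.primeFactors, (1 - (1 : ℝ) / p) ≤ ∏ p ∈ S.filter (fun p => p ∣ q), (1 - (1 : ℝ) / p) := by
      apply prod_le_prod_of_subset_of_le_one
      · intro p hp
        rw [mem_filter] at hp
        exact Nat.mem_primeFactors.2 ⟨(hS p hp.1).1, hp.2, by omega⟩
      · intro p hp
        exact (h01 p (Nat.prime_of_mem_primeFactors hp)).1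
      · intro p hp _
        exact (h01 p (Nat.prime_of_mem_primeFactors hp)).2
    have h3 : 0 ≤ ∏ p ∈ q.primeFactors, (1 - (1 : ℝ) / p) :=
      prod_nonneg fun p hp => (h01 p (Nat.prime_of_mem_primeFactors hp)).1
    refine (pow_le_pow_left₀ h3 h2 _).trans ?_
    rw [← prod_pow]
    apply Finset.prod_le_prod
    · intro p hp
      exact pow_nonneg (h01 p (hS p (mem_filter.1 hp).1).1).1 _
    · intro p hp
      obtain ⟨g1, g2⟩ := hS p (mem_filter.1 hp).1
      exact fac_ge r p g1.two_le g2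
  have h4 : ∏ p ∈ S, (1 - (r : ℝ) / p) = (∏ p ∈ S.filter (fun p => ¬ p ∣ q), (1 - (r : ℝ) / p)) *
      ∏ p ∈ S.filter (fun p => p ∣ q), (1 - (r : ℝ) / p) := by
    rw [mul_comm, prod_filter_mul_prod_filter_not]
  rw [h4]
  exact mul_le_mul_of_nonneg_left h1 (prod_nonneg fun p hp => hfac0 p (mem_filter.1 hp).1)

open Classical in
/-- **the upper bound sieve in progressions, uniformly in the modulus** -/
theorem upQ (F : Finset (ℤ × ℤ)) (hF : ∀ f ∈ F, f.1 ≠ 0)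
    (hFg : ∀ f ∈ F, ∀ g ∈ F, f ≠ g → f.1 * g.2 - g.1 * f.2 ≠ 0) (η : ℝ) (hη : 0 < η) :
    ∃ C : ℝ, 0 < C ∧ ∀ᶠ X : ℕ in atTop, ∀ q : ℕ, 1 ≤ q → ∀ A : ℤ,
      (((Icc 1 X).filter (fun n : ℕ => ∀ f ∈ F, ∀ p : ℕ, p.Prime → Real.log p ≤ η * Real.log X →
        ¬ (p : ℤ) ∣ f.1 * (A + q * (n : ℤ)) + f.2)).card : ℝ) * ((Nat.totient q : ℝ) / q) ^ (2 * F.card) ≤
          C * (X / Real.log X ^ F.card) := by
  obtain ⟨r, hr⟩ : ∃ r, r = F.card := ⟨_, rfl⟩
  obtain ⟨K, z0, hK, hup⟩ := up_sieve r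
  obtain ⟨C1, hC0, hC1⟩ := mertens_ratio
  have hK0 : (1 : ℝ) ≤ K := by exact_mod_cast hK
  obtain ⟨L, hL⟩ : ∃ L : ℕ, L = z0 + 2 * r + 2 + ∑ f ∈ F, f.1.natAbs +
    ∑ f ∈ F, ∑ g ∈ F, (f.1 * g.2 - g.1 * f.2).natAbs := ⟨_, rfl⟩
  have hL2 : 2 ≤ L := by omega
  have hlogL : 0 ≤ Real.log L := Real.log_natCast_nonneg L
  obtain ⟨κ, hκ⟩ : ∃ κ : ℝ, κ = min η (1 / K) := ⟨_, rfl⟩
  have hκ0 : 0 < κ := by rw [hκ]; positivity
  have hκη : κ ≤ η := by rw [hκ]; exact min_le_left _ _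
  have hκK : κ * K ≤ 1 := by
    rw [← le_div_iff₀ (by linarith)]
    rw [hκ]
    exact min_le_right _ _
  set B : ℝ := Real.exp (r * (2 * C1)) * (2 * Real.log L / κ) ^ r with hB
  have hB0 : 0 ≤ B := by positivity
  have hroot : ∀ᶠ X : ℕ in atTop, √(X : ℝ) ≤ X / Real.log X ^ r := by
    have h1 : (fun x : ℝ => Real.log x ^ r) =o[atTop] (fun x : ℝ => x ^ (1 / 2 : ℝ)) := by
      have := isLittleO_log_rpow_rpow_atTop (r : ℝ) (show (0 : ℝ) < 1 / 2 by norm_num)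
      simpa [Real.rpow_natCast] using this
    have h2 := (h1.bound (show (0 : ℝ) < 1 by norm_num))
    have h3 := tendsto_natCast_atTop_atTop.eventually h2
    filter_upwards [h3, eventually_ge_atTop 3] with X hX hX1
    have hXr : (3 : ℝ) ≤ X := by exact_mod_cast hX1
    have hlog : 0 < Real.log X := Real.log_pos (by linarith)
    rw [Real.norm_of_nonneg (by positivity), Real.norm_of_nonneg (by positivity), one_mul,
      ← Real.sqrt_eq_rpow] at hX
    rw [le_div_iff₀ (by positivity)]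
    calc √(X : ℝ) * Real.log X ^ r ≤ √(X : ℝ) * √(X : ℝ) :=
          mul_le_mul_of_nonneg_left hX (Real.sqrt_nonneg _)
      _ = X := Real.mul_self_sqrt (by positivity)
  refine ⟨2 * B + 1, by positivity, ?_⟩
  filter_upwards [floor_pow' hκ0 (L + 3), hroot, eventually_ge_atTop 3] with X h1 h2 h3 q hq A
  obtain ⟨h4, h5⟩ := h1
  set y : ℕ := ⌊(X : ℝ) ^ κ⌋₊ with hy
  have hXr : (3 : ℝ) ≤ X := by exact_mod_cast h3
  have hX0 : (0 : ℝ) < X := by linarith
  have hlogX : 0 < Real.log X := Real.log_pos (by linarith)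
  have hyX : (y : ℝ) ≤ (X : ℝ) ^ κ := Nat.floor_le (by positivity)
  have hyK : y ^ K ≤ X := by
    have h6 : ((y ^ K : ℕ) : ℝ) ≤ X := by
      push_cast
      calc (y : ℝ) ^ K ≤ ((X : ℝ) ^ κ) ^ K := pow_le_pow_left₀ (Nat.cast_nonneg _) hyX K
        _ = (X : ℝ) ^ (κ * K) := by rw [← Real.rpow_natCast, ← Real.rpow_mul hX0.le]
        _ ≤ (X : ℝ) ^ (1 : ℝ) := Real.rpow_le_rpow_of_exponent_le (by linarith) hκK
        _ = X := Real.rpow_one _
    exact_mod_cast h6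
  have hq0 : (0 : ℤ) < q := by exact_mod_cast hq
  set F' : Finset (ℤ × ℤ) := F.image (fun f => (f.1 * (q : ℤ), f.1 * A + f.2)) with hF'
  have hinj : Function.Injective (fun f : ℤ × ℤ => (f.1 * (q : ℤ), f.1 * A + f.2)) := by
    intro f g h
    have h1 := (Prod.ext_iff.1 h).1
    have h2 := (Prod.ext_iff.1 h).2
    simp only at h1 h2
    have h3 : f.1 = g.1 := mul_right_cancel₀ hq0.ne' h1
    rw [h3] at h2
    exact Prod.ext h3 (by linarith)
  have hF'c : F'.card = r := by rw [hF', card_image_of_injective _ hinj, hr]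
  set S₀ := (Ioc L y).filter Nat.Prime with hS₀
  set S := S₀.filter (fun p => ¬ p ∣ q) with hS
  have hSp : ∀ p ∈ S, p.Prime := fun p hp => (mem_filter.1 (mem_filter.1 hp).1).2
  have hSL : ∀ p ∈ S, L < p ∧ p ≤ y := fun p hp => mem_Ioc.1 (mem_filter.1 (mem_filter.1 hp).1).1
  have hSq : ∀ p ∈ S, ¬ p ∣ q := fun p hp => (mem_filter.1 hp).2
  have hnu : ∀ p ∈ S, nu (Qs F' 0) p = r := by
    intro p hp
    have hpL := (hSL p hp).1
    have hpp : Prime (p : ℤ) := Nat.prime_iff_prime_int.1 (hSp p hp)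
    have hpq : ¬ (p : ℤ) ∣ (q : ℤ) := fun h => hSq p hp (by exact_mod_cast h)
    rw [nu_eq F' 0 (hSp p hp), hF'c]
    · intro f' hf' hd
      obtain ⟨f, hf, rfl⟩ := mem_image.1 hf'
      simp only at hd
      rcases hpp.dvd_or_dvd hd with hd | hd
      · have h6 := Nat.le_of_dvd (Int.natAbs_pos.2 (hF f hf)) (Int.natCast_dvd.1 hd)
        have h7 : f.1.natAbs ≤ ∑ f ∈ F, f.1.natAbs :=
          single_le_sum (f := fun f : ℤ × ℤ => f.1.natAbs) (fun _ _ => Nat.zero_le _) hf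
        omega
      · exact hpq hd
    · intro f' hf' g' hg' hne hd
      obtain ⟨f, hf, rfl⟩ := mem_image.1 hf'
      obtain ⟨g, hg, rfl⟩ := mem_image.1 hg'
      simp only at hd
      have hne' : f ≠ g := by
        rintro rfl
        exact hne rfl
      have e : f.1 * q * (g.1 * A + g.2) - g.1 * q * (f.1 * A + f.2) = q * (f.1 * g.2 - g.1 * f.2) := by ring
      rw [e] at hd
      rcases hpp.dvd_or_dvd hd with hd | hd
      · exact hpq hd
      · have h6 := Nat.le_of_dvd (Int.natAbs_pos.2 (hFg f hf g hg hne')) (Int.natCast_dvd.1 hd)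
        have h7 : (f.1 * g.2 - g.1 * f.2).natAbs ≤ ∑ f ∈ F, ∑ g ∈ F, (f.1 * g.2 - g.1 * f.2).natAbs := by
          refine (single_le_sum (f := fun g : ℤ × ℤ => (f.1 * g.2 - g.1 * f.2).natAbs)
            (fun _ _ => Nat.zero_le _) hg).trans ?_
          exact single_le_sum (f := fun f : ℤ × ℤ => ∑ g ∈ F, (f.1 * g.2 - g.1 * f.2).natAbs)
            (fun _ _ => Nat.zero_le _) hf
        omega
  have key := hup y X (by omega) hyK (Qs F' 0) (Qs_per F' 0) S (by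
    intro p hp
    have := hSL p hp
    exact ⟨hSp p hp, by omega, this.2, (hnu p hp).le⟩)
  have hprod' : ∏ p ∈ S, (1 - (nu (Qs F' 0) p : ℝ) / p) = ∏ p ∈ S, (1 - (r : ℝ) / p) := by
    apply prod_congr rfl
    intro p hp
    rw [hnu p hp]
  rw [hprod'] at key
  have hdrop := prod_drop r q hq S₀ (by
    intro p hp
    have h6 := mem_filter.1 hp
    have h7 := (mem_Ioc.1 h6.1).1
    exact ⟨h6.2, by omega⟩)
  have hprod := hdrop.trans (prodP hC1 hC0 r L y hL2 (by omega) (by omega))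
  have hlogy : 0 < Real.log y := lt_of_lt_of_le (by positivity) h5
  have h6 : Real.exp (r * (2 * C1)) * (Real.log L / Real.log y) ^ r ≤ B / Real.log X ^ r := by
    rw [hB, mul_div_assoc, ← div_pow]
    apply mul_le_mul_of_nonneg_left _ (Real.exp_pos _).le
    apply pow_le_pow_left₀ (by positivity)
    rw [div_div, div_le_div_iff₀ hlogy (by positivity)]
    have : κ * Real.log X ≤ 2 * Real.log y := by linarith
    nlinarith
  have h7 : (X : ℝ) * ((∏ p ∈ S, (1 - (r : ℝ) / p)) * ((Nat.totient q : ℝ) / q) ^ (2 * r)) ≤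
      X * (B / Real.log X ^ r) :=
    mul_le_mul_of_nonneg_left (hprod.trans h6) hX0.le
  have hcard : (((Icc 1 X).filter (fun n : ℕ => ∀ f ∈ F, ∀ p : ℕ, p.Prime →
      Real.log p ≤ η * Real.log X → ¬ (p : ℤ) ∣ f.1 * (A + q * (n : ℤ)) + f.2)).card : ℝ) ≤
      (((Icc 1 X).filter (fun n : ℕ => ∀ p ∈ S, ¬ Qs F' 0 p n)).card : ℝ) := by
    rw [Nat.cast_le]
    apply card_le_card
    intro n hn
    rw [mem_filter] at hn ⊢
    refine ⟨hn.1, fun p hp => ?_⟩
    rintro ⟨f', hf', hd⟩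
    obtain ⟨f, hf, rfl⟩ := mem_image.1 hf'
    simp only [zero_add] at hd
    refine hn.2 f hf p (hSp p hp) ?_ ?_
    · have hpy : (p : ℝ) ≤ (X : ℝ) ^ κ := le_trans (by exact_mod_cast (hSL p hp).2) hyX
      have hp0 : (0 : ℝ) < p := by exact_mod_cast (hSp p hp).pos
      calc Real.log p ≤ Real.log ((X : ℝ) ^ κ) := Real.log_le_log hp0 hpy
        _ = κ * Real.log X := Real.log_rpow hX0 κ
        _ ≤ η * Real.log X := mul_le_mul_of_nonneg_right hκη hlogX.le
    · have e : f.1 * (A + q * (n : ℤ)) + f.2 = f.1 * q * n + (f.1 * A + f.2) := by ring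
      rw [e]
      exact hd
  -- the totient factor is at most one
  have htot : ((Nat.totient q : ℝ) / q) ^ (2 * r) ≤ 1 := by
    apply pow_le_one₀ (by positivity)
    rw [div_le_one (by exact_mod_cast hq)]
    exact_mod_cast Nat.totient_le q
  have htot0 : 0 ≤ ((Nat.totient q : ℝ) / q) ^ (2 * r) := by positivity
  rw [← hr]
  calc _ ≤ (2 * (X * ∏ p ∈ S, (1 - (r : ℝ) / p)) + √(X : ℝ)) * ((Nat.totient q : ℝ) / q) ^ (2 * r) :=
        mul_le_mul_of_nonneg_right (hcard.trans key) htot0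
    _ = 2 * ((X : ℝ) * ((∏ p ∈ S, (1 - (r : ℝ) / p)) * ((Nat.totient q : ℝ) / q) ^ (2 * r))) +
        √(X : ℝ) * ((Nat.totient q : ℝ) / q) ^ (2 * r) := by ring
    _ ≤ 2 * (X * (B / Real.log X ^ r)) + √(X : ℝ) * 1 := by
        have h9 := mul_le_mul_of_nonneg_left htot (Real.sqrt_nonneg (X : ℝ))
        linarith
    _ ≤ 2 * (X * (B / Real.log X ^ r)) + X / Real.log X ^ r := by linarith
    _ = _ := by ring

end Pool.Agent.W2helper64.UM
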