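import Mathlib
import Pool.Agent.N694.SP.Spr
import Pool.Agent.W2helper64.UM.Up
import Pool.Agent.W2helper64.RD.Sc

set_option autoImplicit false

/-! Prime tuples in many classes of every modulus up to a power of `x`. -/

namespace Pool.Agent.W2helper64.UM

open Finset Filter
open Pool.Agent.Y827.GS Pool.Agent.Y827.RO
open Pool.Agent.N694.SP (not_prop)
open Pool.Agent.W2helper64.RD

/-- `R ⊆ [1, N]` has at least `c N / (log N) ^ r` elements, and at most `C (q / φ(q)) ^ (2 r) N / (q (log N) ^ r)`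
elements in every class modulo `q`, if `q ^ (s + 1) ≤ N ^ s` -/
def SprQ (r s : ℕ) (c C : ℝ) (N : ℕ) (R : Finset ℕ) : Prop :=
  (∀ m ∈ R, 1 ≤ m ∧ m ≤ N) ∧ c * (N / Real.log N ^ r) ≤ (R.card : ℝ) ∧
    ∀ q b : ℕ, 1 ≤ q → q ^ (s + 1) ≤ N ^ s → b < q →
      ((R.filter (fun m => m % q = b)).card : ℝ) * ((Nat.totient q : ℝ) / q) ^ (2 * r) ≤
        C * (N / (q * Real.log N ^ r))

lemma q_le {q N s : ℕ} (h : q ^ (s + 1) ≤ N ^ s) (hN : 1 ≤ N) : q ≤ N := by
  by_contra hcon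
  push Not at hcon
  have h1 : N ^ (s + 1) < q ^ (s + 1) := Nat.pow_lt_pow_left hcon (by omega)
  have h2 : N ^ s ≤ N ^ (s + 1) := Nat.pow_le_pow_right hN (by omega)
  omega

/-- rough sets are spread over progressions -/
theorem sprQ_of {r s N X₀ : ℕ} (hN : 3 ≤ N) (hNX : X₀ ^ (s + 1) < N) {δ c C : ℝ} (hδ : 0 < δ) (hC : 0 < C)
    (P : ℝ → ℤ → Prop) (hP : ∀ x y m, x ≤ y → P y m → P x m)
    (hup : ∀ X : ℕ, X₀ ≤ X → ∀ q : ℕ, 1 ≤ q → ∀ A : ℤ, ∀ W : Finset ℕ, W ⊆ Icc 1 X →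
      (∀ n ∈ W, P (δ / 2 * Real.log X) (A + q * (n : ℤ))) →
      (W.card : ℝ) * ((Nat.totient q : ℝ) / q) ^ (2 * r) ≤ C * (X / Real.log X ^ r))
    (R : Finset ℕ) (hR : ∀ m ∈ R, 1 ≤ m ∧ m ≤ N ∧ P (δ * Real.log N) m)
    (hlow : c * (N / Real.log N ^ r) ≤ (R.card : ℝ)) :
    SprQ r s c (C * (2 * ((s : ℝ) + 1) ^ r)) N R := by
  have hN3 : (3 : ℝ) ≤ N := by exact_mod_cast hN
  have hl : 0 < Real.log N := Real.log_pos (by linarith)
  refine ⟨fun m hm => ⟨(hR m hm).1, (hR m hm).2.1⟩, hlow, fun q b hq hqs hb => ?_⟩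
  have hqN : q ≤ N := q_le hqs (by omega)
  obtain ⟨X, hX⟩ : ∃ X, X = N / q + 1 := ⟨_, rfl⟩
  have hNqX : N < q * X := by
    rw [hX]
    exact Nat.lt_mul_div_succ N (by omega)
  have hNXs : N ≤ X ^ (s + 1) := by
    have h1 : N ^ (s + 1) ≤ N ^ s * X ^ (s + 1) := by
      calc N ^ (s + 1) ≤ (q * X) ^ (s + 1) := Nat.pow_le_pow_left hNqX.le _
        _ = q ^ (s + 1) * X ^ (s + 1) := mul_pow _ _ _
        _ ≤ N ^ s * X ^ (s + 1) := Nat.mul_le_mul_right _ hqs
    rw [pow_succ] at h1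
    exact Nat.le_of_mul_le_mul_left h1 (by positivity)
  have hX0 : X₀ ≤ X := by
    by_contra hcon
    push Not at hcon
    have := Nat.pow_le_pow_left hcon.le (s + 1)
    omega
  have hX2 : 2 ≤ X := by
    by_contra hcon
    have : X ≤ 1 := by omega
    have := Nat.pow_le_pow_left this (s + 1)
    rw [one_pow] at this
    omega
  have hXN : X ≤ N + 1 := by
    rw [hX]
    have := Nat.div_le_self N q
    omega
  have hXr : (2 : ℝ) ≤ X := by exact_mod_cast hX2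
  have hlX : 0 < Real.log X := Real.log_pos (by linarith)
  have h2 : Real.log N ≤ ((s : ℝ) + 1) * Real.log X := by
    have h3 : Real.log N ≤ Real.log ((X : ℝ) ^ (s + 1)) :=
      Real.log_le_log (by linarith) (by exact_mod_cast hNXs)
    rw [Real.log_pow] at h3
    push_cast at h3
    exact h3
  have h4 : Real.log X ≤ 2 * Real.log N := by
    have h5 : Real.log X ≤ Real.log ((N : ℝ) ^ 2) := by
      apply Real.log_le_log (by linarith)
      have h6 : (X : ℝ) ≤ N + 1 := by exact_mod_cast hXN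
      nlinarith
    rw [Real.log_pow] at h5
    push_cast at h5
    exact h5
  set W : Finset ℕ := (R.filter (fun m => m % q = b)).image (fun m => m / q + 1) with hW
  have hWc : W.card = (R.filter (fun m => m % q = b)).card := by
    rw [hW]
    apply card_image_of_injOn
    intro m hm m' hm' h
    rw [mem_coe, mem_filter] at hm hm'
    simp only at h
    have h1 : m / q = m' / q := by omega
    rw [← Nat.mod_add_div m q, ← Nat.mod_add_div m' q, hm.2, hm'.2, h1]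
  have h5 := hup X hX0 q hq ((b : ℤ) - q) W (by
    intro n hn
    obtain ⟨m, hm, rfl⟩ := mem_image.1 hn
    rw [mem_filter] at hm
    have h6 := (hR m hm.1).2.1
    have h7 : m / q ≤ N / q := Nat.div_le_div_right h6
    rw [mem_Icc]
    refine ⟨Nat.le_add_left 1 _, ?_⟩
    rw [hX]
    exact Nat.add_le_add_right h7 1) (by
    intro n hn
    obtain ⟨m, hm, rfl⟩ := mem_image.1 hn
    rw [mem_filter] at hm
    have e : ((b : ℤ) - q) + q * ((m / q + 1 : ℕ) : ℤ) = m := by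
      have h7 : ((m % q : ℕ) : ℤ) + q * ((m / q : ℕ) : ℤ) = m := by exact_mod_cast Nat.mod_add_div m q
      rw [hm.2] at h7
      push_cast at h7 ⊢
      linarith
    rw [e]
    apply hP _ _ _ _ (hR m hm.1).2.2
    nlinarith)
  rw [hWc] at h5
  refine h5.trans ?_
  rw [mul_assoc]
  apply mul_le_mul_of_nonneg_left _ hC.le
  have hq0 : (0 : ℝ) < q := by exact_mod_cast hq
  have h6 : (X : ℝ) ≤ 2 * (N / q) := by
    have h7 : (X : ℝ) ≤ N / q + 1 := by
      rw [hX]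
      push_cast
      linarith [Nat.cast_div_le (α := ℝ) (m := N) (n := q)]
    have h8 : (1 : ℝ) ≤ N / q := by
      rw [le_div_iff₀ hq0, one_mul]
      exact_mod_cast hqN
    linarith
  have h7 : Real.log N ^ r ≤ ((s : ℝ) + 1) ^ r * Real.log X ^ r := by
    rw [← mul_pow]
    exact pow_le_pow_left₀ hl.le h2 r
  have h8 : 0 < Real.log N ^ r := by positivity
  have h9 : 0 < Real.log X ^ r := by positivity
  have e : 2 * ((s : ℝ) + 1) ^ r * (N / (q * Real.log N ^ r)) =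
      (2 * (N / q)) * (((s : ℝ) + 1) ^ r / Real.log N ^ r) := by
    field_simp
  rw [e, div_eq_mul_one_div]
  apply mul_le_mul h6 _ (by positivity) (by positivity)
  rw [div_le_div_iff₀ h9 h8]
  linarith

/-- the family of all the forms -/
def Fs {T K : ℕ} (H : Fin T → Fin K → ℤ × ℤ) (s : ℕ) : Finset (ℤ × ℤ) :=
  insert ((1 : ℤ), -(s : ℤ)) ((univ : Finset (Fin T × Fin K)).image (fun x => H x.1 x.2))

lemma Fs_card {T K : ℕ} (H : Fin T → Fin K → ℤ × ℤ)
    (hinj : Function.Injective (fun x : Fin T × Fin K => H x.1 x.2)) (s : ℕ)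
    (hs : ∀ g i, (H g i).2 + (H g i).1 * s ≠ 0) : (Fs H s).card = T * K + 1 := by
  unfold Fs
  rw [card_insert_of_notMem, card_image_of_injective _ hinj, card_univ, Fintype.card_prod,
      Fintype.card_fin, Fintype.card_fin]
  intro h
  obtain ⟨x, -, hx⟩ := mem_image.1 h
  have h1 : (H x.1 x.2).1 = 1 := by rw [hx]
  have h2 : (H x.1 x.2).2 = -(s : ℤ) := by rw [hx]
  apply hs x.1 x.2
  rw [h1, h2]
  ring

/-- `n` is rough for the family `F` -/
def Rgh (F : Finset (ℤ × ℤ)) (y : ℝ) (n : ℤ) : Prop :=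
  ∀ f ∈ F, ∀ p : ℕ, p.Prime → Real.log p ≤ y → ¬ (p : ℤ) ∣ f.1 * n + f.2

/-- **the coloured theorem with sets which are spread over progressions** -/
theorem hitQ (k : ℕ) : ∃ z n₀ r : ℕ, ∀ (v : ℕ) (V : Finset ℕ), (∀ x ∈ V, x ≡ v [MOD z.factorial]) →
    n₀ ≤ V.card → ∀ s : ℕ, ∃ c C : ℝ, 0 < c ∧ 0 < C ∧ ∀ᶠ N : ℕ in atTop, ∃ T ∈ V.powerset,
      T.card = k + 1 ∧ ∃ R : Finset ℕ, SprQ r s c C N R ∧ ∀ m ∈ R, ∀ t ∈ T, (m + t).Prime := by
  classical
  obtain ⟨T, hT⟩ : ∃ T, T = 4 * (k + 1) := ⟨_, rfl⟩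
  have hTM : (18 / 5 : ℝ) * k < T := by
    rw [hT]
    push_cast
    have : (0 : ℝ) ≤ k := Nat.cast_nonneg _
    linarith
  obtain ⟨K, hK, δ, hδ, H0⟩ := lamR0 T k (by omega) hTM
  refine ⟨T * K, T * K, T * K + 1, fun v V hV hn s => ?_⟩
  obtain ⟨V', hV'V, hV'c⟩ := exists_subset_card_eq hn
  have hcard : Fintype.card (Fin T × Fin K) = Fintype.card V' := by
    rw [Fintype.card_prod, Fintype.card_fin, Fintype.card_fin, Fintype.card_coe, hV'c]
  let e : (Fin T × Fin K) ≃ V' := Fintype.equivOfCardEq hcard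
  set H : Fin T → Fin K → ℤ × ℤ := fun g i => (1, ((e (g, i) : ℕ) : ℤ)) with hH
  have hinj : Function.Injective (fun x : Fin T × Fin K => H x.1 x.2) := by
    intro x y hxy
    have h1 := (Prod.ext_iff.1 hxy).2
    simp only [hH] at h1
    have h2 : (e (x.1, x.2) : ℕ) = (e (y.1, y.2) : ℕ) := by exact_mod_cast h1
    have h3 := e.injective (Subtype.ext h2)
    simpa using h3
  have hpos : ∀ g i, 0 < (H g i).1 ∧ IsCoprime (H g i).1 (H g i).2 :=
    fun g i => ⟨one_pos, isCoprime_one_left⟩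
  have hloc : ∀ p : ℕ, p.Prime → p ≤ T * K → ∃ r : ℤ, ∀ g i, ¬ (p : ℤ) ∣ (H g i).1 * r + (H g i).2 := by
    intro p hp hpT
    refine ⟨1 - v, fun g i hd => ?_⟩
    simp only [hH, one_mul] at hd
    have h1 : p ∣ (T * K).factorial := (hp.dvd_factorial).2 hpT
    have h2 : (e (g, i) : ℕ) ≡ v [MOD p] := (hV _ (hV'V (e (g, i)).2)).of_dvd h1
    have h3 : (p : ℤ) ∣ (v : ℤ) - ((e (g, i) : ℕ) : ℤ) := (Int.natCast_modEq_iff.2 h2).dvd
    have h4 : (p : ℤ) ∣ 1 := by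
      have h5 := dvd_add hd h3
      have e1 : (1 - (v : ℤ) + ((e (g, i) : ℕ) : ℤ)) + ((v : ℤ) - ((e (g, i) : ℕ) : ℤ)) = 1 := by ring
      rwa [e1] at h5
    exact (Nat.prime_iff_prime_int.1 hp).not_isUnit (isUnit_of_dvd_one h4)
  obtain ⟨A, hA⟩ := adf_ev (univ.image (fun x : Fin T × Fin K => H x.1 x.2)) (by
    intro f hf
    obtain ⟨x, -, rfl⟩ := mem_image.1 hf
    exact hpos _ _)
  obtain ⟨s₀, c₀, hc₀, H1⟩ := H0 A
  -- the upper bound
  have hFs : ∀ s' : ℕ, (∀ g i, (H g i).2 + (H g i).1 * s' ≠ 0) → ∀ f ∈ Fs H s', 0 < f.1 ∧ IsCoprime f.1 f.2 := by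
    intro s' _ f hf
    unfold Fs at hf
    rw [mem_insert, mem_image] at hf
    rcases hf with rfl | ⟨x, -, rfl⟩
    · exact ⟨one_pos, isCoprime_one_left⟩
    · exact hpos _ _
  have hup : ∀ s' : ℕ, ∃ C : ℝ, 0 < C ∧ ((∀ g i, (H g i).2 + (H g i).1 * s' ≠ 0) →
      ∀ᶠ X : ℕ in atTop, ∀ q : ℕ, 1 ≤ q → ∀ A : ℤ, ∀ W : Finset ℕ, W ⊆ Icc 1 X →
      (∀ n ∈ W, Rgh (Fs H s') (δ / 2 * Real.log X) (A + q * (n : ℤ))) →
      (W.card : ℝ) * ((Nat.totient q : ℝ) / q) ^ (2 * (T * K + 1)) ≤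
        C * (X / Real.log X ^ (T * K + 1))) := by
    intro s'
    by_cases hs : ∀ g i, (H g i).2 + (H g i).1 * s' ≠ 0
    swap
    · exact ⟨1, one_pos, fun h => absurd h hs⟩
    have hF1 := hFs s' hs
    obtain ⟨C, hC0, hC⟩ := upQ (Fs H s') (fun f hf => (hF1 f hf).1.ne') (fun f hf g hg hne =>
      not_prop (hF1 f hf).1 (hF1 g hg).1 (hF1 f hf).2 (hF1 g hg).2 hne) (δ / 2) (by positivity)
    refine ⟨C, hC0, fun _ => ?_⟩
    filter_upwards [hC] with X hX q hq A W hW hWR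
    rw [← Fs_card H hinj s' hs]
    refine le_trans ?_ (hX q hq A)
    apply mul_le_mul_of_nonneg_right _ (by positivity)
    rw [Nat.cast_le]
    apply card_le_card
    intro n hn
    exact mem_filter.2 ⟨hW hn, fun f hf p hp hpl => hWR n hn f hf p hp hpl⟩
  choose Cs hCs0 hCs using hup
  obtain ⟨CC, hCC⟩ : ∃ CC : ℝ, CC = ∑ s ∈ range (s₀ + 1), Cs s := ⟨_, rfl⟩
  have hCC0 : 0 < CC := by
    rw [hCC]
    exact sum_pos (fun s _ => hCs0 s) ⟨0, mem_range.2 (by omega)⟩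
  have hCle : ∀ s ≤ s₀, Cs s ≤ CC := by
    intro s hs
    rw [hCC]
    exact single_le_sum (f := Cs) (fun s _ => (hCs0 s).le) (mem_range.2 (by omega))
  have hupall : ∀ᶠ X : ℕ in atTop, ∀ s' ∈ range (s₀ + 1), (∀ g i, (H g i).2 + (H g i).1 * s' ≠ 0) →
      ∀ q : ℕ, 1 ≤ q → ∀ A : ℤ, ∀ W : Finset ℕ, W ⊆ Icc 1 X →
      (∀ n ∈ W, Rgh (Fs H s') (δ / 2 * Real.log X) (A + q * (n : ℤ))) →
      (W.card : ℝ) * ((Nat.totient q : ℝ) / q) ^ (2 * (T * K + 1)) ≤
        Cs s' * (X / Real.log X ^ (T * K + 1)) := by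
    rw [Filter.eventually_all_finset]
    intro s' _
    by_cases hs : ∀ g i, (H g i).2 + (H g i).1 * s' ≠ 0
    · filter_upwards [hCs s' hs] with X hX _
      exact hX
    · exact Eventually.of_forall fun X h => absurd h hs
  obtain ⟨X₀, hX₀⟩ := eventually_atTop.1 hupall
  refine ⟨c₀, CC * (2 * ((s : ℝ) + 1) ^ (T * K + 1)), hc₀, by positivity, ?_⟩
  filter_upwards [H1, hA, eventually_gt_atTop (X₀ ^ (s + 1) + 3)] with N hN1 hN2 hN3
  obtain ⟨s', S, σ, hs, hs1, -, hS, hcard⟩ := hN1 H hinj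
    (fun g i => hN2 _ (mem_image.2 ⟨(g, i), mem_univ _, rfl⟩)) hloc
  obtain ⟨S', hS'S, hS'c⟩ := exists_subset_card_eq hS
  refine ⟨S'.image (fun g => (e (g, σ g) : ℕ)), ?_, ?_, Rs H δ s' S σ N, ?_, ?_⟩
  · rw [mem_powerset]
    intro x hx
    obtain ⟨g, -, rfl⟩ := mem_image.1 hx
    exact hV'V (e (g, σ g)).2
  · rw [card_image_of_injective, hS'c]
    intro g g' h
    have h2 := e.injective (Subtype.ext h)
    exact (Prod.ext_iff.1 h2).1
  · refine sprQ_of (δ := δ) (X₀ := X₀) (by omega) (by omega) hδ hCC0 (Rgh (Fs H s'))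
      (fun x y m hxy h f hf p hp hpl => h f hf p hp (hpl.trans hxy)) ?_ _ ?_ hcard
    · intro X hX q hq A' W hW hWR
      refine (hX₀ X hX s' (mem_range.2 (by omega)) hs1 q hq A' W hW hWR).trans ?_
      apply mul_le_mul_of_nonneg_right (hCle s' hs)
      have := Real.log_natCast_nonneg X
      positivity
    · intro m hm
      unfold Rs at hm
      obtain ⟨h1, -, h3, h4, -⟩ := mem_filter.1 hm
      rw [mem_Icc] at h1
      refine ⟨h1.1, h1.2, fun f hf p hp hpl => ?_⟩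
      unfold Fs at hf
      rw [mem_insert, mem_image] at hf
      rcases hf with rfl | ⟨x, -, rfl⟩
      · show ¬ (p : ℤ) ∣ 1 * (m : ℤ) + -(s' : ℤ)
        rw [one_mul, ← sub_eq_add_neg]
        exact h3 p hp hpl
      · exact h4 x.1 x.2 p hp hpl
  · intro m hm t ht
    obtain ⟨g, hg, rfl⟩ := mem_image.1 ht
    unfold Rs at hm
    have h1 := (mem_filter.1 hm).2.2.2.2 g (hS'S hg)
    simp only [hH, one_mul] at h1
    have h2 : ((m : ℤ) + ((e (g, σ g) : ℕ) : ℤ)).toNat = m + (e (g, σ g) : ℕ) := by omega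
    rwa [h2] at h1

/-- all moduli `q` with `q ^ (s + 1) ≤ x ^ s` have many good classes -/
def Um (r s : ℕ) (c : ℝ) (T : Finset ℕ) (x : ℕ) : Prop := ∀ t₀ ∈ T, (∀ t ∈ T, t₀ ≤ t) →
  ∀ q : ℕ, 1 ≤ q → q ^ (s + 1) ≤ x ^ s → c * ((Nat.totient q : ℝ) / q) ^ (2 * r) * q ≤
    (((range q).filter (fun a : ℕ => c * (x / (q * Real.log x ^ r)) ≤ (cnt q a T T t₀ x : ℝ))).card : ℝ)

lemma Um.mono {r s s' : ℕ} {c : ℝ} {T : Finset ℕ} {x : ℕ} (hx : 1 ≤ x) (hs : s' ≤ s) (h : Um r s c T x) :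
    Um r s' c T x := by
  intro t₀ ht₀ hmin q hq hqs
  refine h t₀ ht₀ hmin q hq ?_
  have h1 : q ≤ x := q_le hqs hx
  obtain ⟨d, rfl⟩ := Nat.exists_eq_add_of_le hs
  calc q ^ (s' + d + 1) = q ^ (s' + 1) * q ^ d := by ring
    _ ≤ x ^ s' * x ^ d := Nat.mul_le_mul hqs (Nat.pow_le_pow_left h1 d)
    _ = _ := by ring

/-- averaging over the classes -/
lemma um_of {r s N D : ℕ} {c C : ℝ} (hN : 3 ≤ N) (hc : 0 < c) (hC : 0 < C)
    (hD : (D : ℝ) ≤ c / 2 * (N / Real.log N ^ r)) {R : Finset ℕ} (hR : SprQ r s c C N R) {T : Finset ℕ}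
    (hT : ∀ t ∈ T, t ≤ D) (hTR : ∀ m ∈ R, ∀ t ∈ T, (m + t).Prime) :
    Um r s (min (c / 4) (c / (4 * C))) T N := by
  classical
  intro t₀ ht₀ hmin q hq hqs
  have hN3 : (3 : ℝ) ≤ N := by exact_mod_cast hN
  have hl : 0 < Real.log N := Real.log_pos (by linarith)
  have hq0 : (0 : ℝ) < q := by exact_mod_cast hq
  set M : ℝ := N / Real.log N ^ r with hM
  have hM0 : 0 < M := by positivity
  have hMq : (N : ℝ) / (q * Real.log N ^ r) = M / q := by
    rw [hM]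
    field_simp
  obtain ⟨hR1, hR2, hR3⟩ := hR
  set R' := R.filter (fun m => m + D ≤ N) with hR'
  have hR'c : c / 2 * M ≤ (R'.card : ℝ) := by
    have h1 : R.card ≤ R'.card + D := by
      have h2 : R ⊆ R' ∪ Ioc (N - D) N := by
        intro m hm
        rw [mem_union, mem_Ioc, hR', mem_filter]
        by_cases h : m + D ≤ N
        · exact Or.inl ⟨hm, h⟩
        · have h5 := (hR1 m hm).2
          have h6 := (hR1 m hm).1
          right
          omega
      have h3 := (card_le_card h2).trans (card_union_le _ _)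
      rw [Nat.card_Ioc] at h3
      omega
    have h2 : (R.card : ℝ) ≤ R'.card + D := by exact_mod_cast h1
    rw [← hM] at hR2 
    linarith
  set φ : ℝ := ((Nat.totient q : ℝ) / q) ^ (2 * r) with hφ
  have hφ0 : 0 ≤ φ := by positivity
  set f : ℕ → ℝ := fun b => ((R'.filter (fun m => m % q = b)).card : ℝ) with hf
  have hsum : (R'.card : ℝ) = ∑ b ∈ range q, f b := by
    rw [hf, ← Nat.cast_sum, Nat.cast_inj]
    apply card_eq_sum_card_fiberwise
    intro m _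
    exact mem_coe.2 (mem_range.2 (Nat.mod_lt _ (by omega)))
  have hfup : ∀ b ∈ range q, f b * φ ≤ C * (M / q) := by
    intro b hb
    have h1 := hR3 q b hq hqs (mem_range.1 hb)
    rw [hMq] at h1
    refine le_trans ?_ h1
    apply mul_le_mul_of_nonneg_right _ hφ0
    rw [hf]
    simp only
    rw [Nat.cast_le]
    apply card_le_card
    intro m hm
    rw [mem_filter] at hm ⊢
    exact ⟨(mem_filter.1 hm.1).1, hm.2⟩
  set G := (range q).filter (fun b => c / 4 * (M / q) ≤ f b) with hG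
  have hGsum : c / 4 * M ≤ ∑ b ∈ G, f b := by
    have h1 : ∑ b ∈ range q, f b = ∑ b ∈ G, f b + ∑ b ∈ (range q).filter (fun b => ¬ c / 4 * (M / q) ≤ f b), f b := by
      rw [hG, sum_filter_add_sum_filter_not]
    have h2 : ∑ b ∈ (range q).filter (fun b => ¬ c / 4 * (M / q) ≤ f b), f b ≤ c / 4 * M := by
      calc ∑ b ∈ (range q).filter (fun b => ¬ c / 4 * (M / q) ≤ f b), f b
          ≤ ∑ b ∈ (range q).filter (fun b => ¬ c / 4 * (M / q) ≤ f b), c / 4 * (M / q) :=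
            sum_le_sum fun b hb => (not_le.1 (mem_filter.1 hb).2).le
        _ ≤ ∑ b ∈ range q, c / 4 * (M / q) :=
            sum_le_sum_of_subset_of_nonneg (filter_subset _ _) fun _ _ _ => by positivity
        _ = c / 4 * M := by
            rw [sum_const, card_range, nsmul_eq_mul]
            field_simp
    rw [← hsum] at h1
    linarith
  have hGcard : c / (4 * C) * φ * q ≤ (G.card : ℝ) := by
    have h1 : (∑ b ∈ G, f b) * φ ≤ G.card * (C * (M / q)) := by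
      rw [sum_mul, ← nsmul_eq_mul, ← sum_const]
      exact sum_le_sum fun b hb => hfup b (mem_filter.1 hb).1
    have h2 : c / 4 * M * φ ≤ G.card * (C * (M / q)) :=
      (mul_le_mul_of_nonneg_right hGsum hφ0).trans h1
    have h3 : c / (4 * C) * φ * q * (C * (M / q)) = c / 4 * M * φ := by
      field_simp
    rw [← h3] at h2
    exact le_of_mul_le_mul_right h2 (by positivity)
  have hmain : (G.card : ℝ) ≤ (((range q).filter (fun a : ℕ =>
      min (c / 4) (c / (4 * C)) * (N / (q * Real.log N ^ r)) ≤ (cnt q a T T t₀ N : ℝ))).card : ℝ) := by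
    rw [Nat.cast_le]
    apply card_le_card_of_injOn (fun b => (b + t₀) % q)
    · intro b hb
      rw [mem_coe, hG, mem_filter, mem_range] at hb
      rw [mem_coe, mem_filter, mem_range]
      refine ⟨Nat.mod_lt _ (by omega), ?_⟩
      rw [hMq]
      refine (mul_le_mul_of_nonneg_right (min_le_left _ _) (by positivity)).trans (hb.2.trans ?_)
      rw [hf]
      simp only
      rw [Nat.cast_le]
      unfold cnt
      apply card_le_card_of_injOn (fun m => m + t₀)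
      · intro m hm
        rw [mem_coe, mem_filter, hR', mem_filter] at hm
        obtain ⟨⟨hm1, hm2⟩, hm3⟩ := hm
        rw [mem_coe, mem_filter, mem_Icc]
        have h4 := hT t₀ ht₀
        have h5 := (hR1 m hm1).1
        refine ⟨⟨by show 1 ≤ m + t₀; omega, by show m + t₀ ≤ N; omega⟩, ?_, ?_⟩
        · show ((m + t₀ : ℕ) : ℤ) ≡ (((b + t₀) % q : ℕ) : ℤ) [ZMOD q]
          rw [Int.natCast_modEq_iff]
          have h6 : m ≡ b [MOD q] := by
            rw [Nat.ModEq, hm3, Nat.mod_eq_of_lt hb.1]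
          exact (h6.add_right t₀).trans (Nat.mod_modEq _ _).symm
        · intro t ht
          have h6 := hmin t ht
          have e : m + t₀ + (t - t₀) = m + t := by omega
          rw [e]
          exact ⟨fun _ => ht, fun _ => hTR m hm1 t ht⟩
      · intro m _ m' _ h
        simp only at h
        omega
    · intro b hb b' hb' h
      rw [mem_coe, hG, mem_filter, mem_range] at hb hb'
      simp only at h
      have h1 : b + t₀ ≡ b' + t₀ [MOD q] := h
      have h2 : b ≡ b' [MOD q] := Nat.ModEq.add_right_cancel' t₀ h1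
      exact h2.eq_of_lt_of_lt hb.1 hb'.1
  refine le_trans ?_ (hGcard.trans hmain)
  rw [mul_assoc, mul_assoc]
  exact mul_le_mul_of_nonneg_right (min_le_right _ _) (by positivity)

/-- good tuples inside every large set -/
theorem exists_um (k : ℕ) : ∃ z n₀ r : ℕ, ∀ (v : ℕ) (V : Finset ℕ), (∀ x ∈ V, x ≡ v [MOD z.factorial]) →
    n₀ ≤ V.card → ∀ s : ℕ, ∃ c : ℝ, 0 < c ∧ ∀ᶠ N : ℕ in atTop, ∃ T ∈ V.powerset,
      T.card = k + 1 ∧ Um r s c T N := by
  obtain ⟨z, n₀, r, h⟩ := hitQ k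
  refine ⟨z, n₀, r, fun v V hV hn s => ?_⟩
  obtain ⟨c, C, hc, hC, hev⟩ := h v V hV hn s
  refine ⟨min (c / 4) (c / (4 * C)), by positivity, ?_⟩
  have hlog : ∀ᶠ N : ℕ in atTop, ((V.sup id : ℕ) : ℝ) ≤ c / 2 * (N / Real.log N ^ r) := by
    have h1 : (fun x : ℝ => Real.log x ^ r) =o[atTop] (fun x : ℝ => x ^ (1 : ℝ)) := by
      have := isLittleO_log_rpow_rpow_atTop (r : ℝ) (show (0 : ℝ) < 1 by norm_num)
      simpa [Real.rpow_natCast] using this
    obtain ⟨ε, hε⟩ : ∃ ε : ℝ, ε = c / 2 / (((V.sup id : ℕ) : ℝ) + 1) := ⟨_, rfl⟩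
    have hε0 : 0 < ε := by rw [hε]; positivity
    have h2 := h1.bound hε0
    have h3 := tendsto_natCast_atTop_atTop.eventually h2
    filter_upwards [h3, eventually_ge_atTop 3] with X hX hX1
    have hXr : (3 : ℝ) ≤ X := by exact_mod_cast hX1
    have hlog : 0 < Real.log X := Real.log_pos (by linarith)
    rw [Real.norm_of_nonneg (by positivity), Real.norm_of_nonneg (by positivity), Real.rpow_one] at hX
    rw [mul_div_assoc', le_div_iff₀ (by positivity)]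
    have h4 : (((V.sup id : ℕ) : ℝ) + 1) * (ε * X) = c / 2 * X := by
      rw [hε]
      field_simp
    have h5 : (0 : ℝ) ≤ ((V.sup id : ℕ) : ℝ) := Nat.cast_nonneg _
    calc ((V.sup id : ℕ) : ℝ) * Real.log X ^ r ≤ (((V.sup id : ℕ) : ℝ) + 1) * (ε * X) :=
          mul_le_mul (by linarith) hX (by positivity) (by positivity)
      _ = _ := h4
  filter_upwards [hev, hlog, eventually_ge_atTop 3] with N hN hNl hN3
  obtain ⟨T, hT, hTc, R, hR, hTR⟩ := hN
  refine ⟨T, hT, hTc, um_of hN3 hc hC hNl hR ?_ hTR⟩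
  intro t ht
  exact le_sup (f := id) (mem_powerset.1 hT ht)

/-- good along the ultrafilter -/
def GU (U : Ultrafilter ℕ) (r : ℕ) (T : Finset ℕ) : Prop :=
  ∀ s : ℕ, ∃ c : ℝ, 0 < c ∧ ∀ᶠ x in U, Um r s c T x

lemma stage (k : ℕ) : ∃ r : ℕ, ∀ U : Ultrafilter ℕ, (U : Filter ℕ) ≤ atTop → ∀ Y : Set ℕ, Y.Infinite →
    ∃ Z ⊆ Y, Z.Infinite ∧ ∀ T : Finset ℕ, (T : Set ℕ) ⊆ Z → T.card = k + 1 → GU U r T := by
  obtain ⟨z, n₀, r, h⟩ := exists_um k
  refine ⟨r, fun U hU Y hY => ?_⟩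
  obtain ⟨v, Z, h1, h2, h3⟩ := pigeon z.factorial (Nat.factorial_pos z) Y hY
  obtain ⟨Z', g1, g2, g3⟩ := ramsey (k + 1) (GU U r) Z h2
  rcases g3 with g3 | g3
  · exact ⟨Z', g1.trans h1, g2, g3⟩
  · exfalso
    obtain ⟨V, hV1, hV2⟩ := g2.exists_subset_card_eq n₀
    have h4 := h v V (fun x hx => h3 x (g1 (hV1 hx))) hV2.ge
    have h5 : ∀ T : Finset ℕ, ∃ s : ℕ, T ∈ V.powerset → T.card = k + 1 → ∀ c : ℝ, 0 < c →
        ¬ ∀ᶠ x in U, Um r s c T x := by
      intro T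
      by_cases hT : T ∈ V.powerset ∧ T.card = k + 1
      · have h6 := g3 T (fun x hx => hV1 (mem_powerset.1 hT.1 hx)) hT.2
        have h7 : ∃ s, ∀ c : ℝ, 0 < c → ¬ ∀ᶠ x in U, Um r s c T x := by
          by_contra hcon
          apply h6
          intro s
          by_contra hcon2
          exact hcon ⟨s, fun c hc h => hcon2 ⟨c, hc, h⟩⟩
        obtain ⟨s, hs⟩ := h7
        exact ⟨s, fun _ _ => hs⟩
      · exact ⟨0, fun h1 h2 => absurd ⟨h1, h2⟩ hT⟩
    choose σ hσ using h5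
    obtain ⟨c, hc, hev⟩ := h4 (V.powerset.sup σ)
    have h6 : ∀ᶠ x in U, ∀ T ∈ V.powerset, T.card = k + 1 → ¬ Um r (σ T) c T x := by
      rw [Filter.eventually_all_finset]
      intro T hT
      by_cases hT2 : T.card = k + 1
      · have h7 := hσ T hT hT2 c hc
        rw [← Ultrafilter.eventually_not] at h7
        filter_upwards [h7] with x hx _
        exact hx
      · exact Eventually.of_forall fun x h => absurd h hT2
    obtain ⟨x, ⟨⟨T, hT1, hT2, hT3⟩, hx⟩, hx1⟩ :=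
      (((hev.filter_mono hU).and h6).and ((eventually_ge_atTop 1).filter_mono hU)).exists
    exact hx T hT1 hT2 (hT3.mono hx1 (le_sup (f := σ) hT1))

theorem main : ∃ r : ℕ → ℕ, ∀ V S : Set ℕ, V.Infinite → S.Infinite → ∃ B ⊆ V, ∃ X ⊆ S, B.Infinite ∧
    X.Infinite ∧ ∀ k : ℕ, ∃ K : ℕ, ∀ T : Finset ℕ, (T : Set ℕ) ⊆ B → T.card = k + 1 →
      (∀ t ∈ T, K ≤ t) → ∀ s : ℕ, ∃ c : ℝ, 0 < c ∧ ∃ x₀ : ℕ, ∀ x ∈ X, x₀ ≤ x → Um (r k) s c T x := by
  classical
  choose r hr using stage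
  refine ⟨r, fun V S hV hS => ?_⟩
  have hne : (atTop ⊓ 𝓟 S : Filter ℕ).NeBot := by
    rw [← Filter.frequently_mem_iff_neBot]
    exact Nat.frequently_atTop_iff_infinite.2 hS
  obtain ⟨U, hU⟩ : ∃ U : Ultrafilter ℕ, (U : Filter ℕ) ≤ atTop ⊓ 𝓟 S :=
    ⟨Ultrafilter.of _, Ultrafilter.of_le _⟩
  have hU1 : (U : Filter ℕ) ≤ atTop := hU.trans inf_le_left
  have hU2 : S ∈ (U : Filter ℕ) := hU (mem_inf_of_right (mem_principal_self S))
  obtain ⟨b, hb, hbV, -, hd⟩ := diag (fun j Z => ∀ T : Finset ℕ, (T : Set ℕ) ⊆ Z → T.card = j + 1 → GU U (r j) T)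
    (fun j Z Z' hZ h T hT => h T (hT.trans hZ)) (fun j Y hY => hr j U hU1 Y hY) V hV
  have hc : ∀ (k : ℕ) (T : Finset ℕ) (s : ℕ), ∃ c : ℝ, 0 < c ∧ (GU U (r k) T → ∀ᶠ x in U, Um (r k) s c T x) := by
    intro k T s
    by_cases h : GU U (r k) T
    · obtain ⟨c, hc, h2⟩ := h s
      exact ⟨c, hc, fun _ => h2⟩
    · exact ⟨1, one_pos, fun h2 => absurd h2 h⟩
  choose c hc0 hc1 using hc
  obtain ⟨e, he⟩ := exists_surjective_nat (ℕ × ℕ × Finset ℕ)
  set A : ℕ → Set ℕ := fun j => {x | GU U (r (e j).1) (e j).2.2 →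
    Um (r (e j).1) (e j).2.1 (c (e j).1 (e j).2.2 (e j).2.1) (e j).2.2 x} with hA
  obtain ⟨X, hX1, hX2, hX3⟩ := scales (U : Filter ℕ) hU1 S hU2 A (by
    intro j
    by_cases hj : GU U (r (e j).1) (e j).2.2
    · refine Filter.mem_of_superset (hc1 (e j).1 (e j).2.2 (e j).2.1 hj) ?_
      intro x hx _
      exact hx
    · refine Filter.mem_of_superset Filter.univ_mem ?_
      intro x _ hx
      exact absurd hx hj)
  refine ⟨Set.range b, ?_, X, hX1, Set.infinite_range_of_injective hb.injective, hX2, fun k =>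
    ⟨b k, fun T hT hTc hK s => ?_⟩⟩
  · rintro _ ⟨i, rfl⟩
    exact hbV i
  have hgood : GU U (r k) T := by
    apply hd k T _ hTc
    intro x hx
    obtain ⟨i, rfl⟩ := hT hx
    exact ⟨i, hb.le_iff_le.1 (hK (b i) hx), rfl⟩
  obtain ⟨j, hj⟩ := he (k, s, T)
  obtain ⟨x₀, hx₀⟩ := hX3 j
  refine ⟨c k T s, hc0 _ _ _, x₀, fun x hx hxx => ?_⟩
  have h1 := hx₀ x hx hxx
  rw [hA] at h1
  simp only [Set.mem_ofPred_eq] at h1
  rw [hj] at h1
  exact h1 hgood

end Pool.Agent.W2helper64.UM
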